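import Mathlib

/-!
# Hidden hyperplane convexity: no countable family of aggregations suffices
-/

set_option autoImplicit false

namespace Pool.Agent.Results.MP_9b412f_an.NotCountable

open Matrix Set

/-- the homogeneous form `(x,z)ᵀ Q (x,z)` of the quadratic `xᵀAx + 2bᵀx + c`; the quadratic itself is `z = 1` -/
def hom {n : ℕ} (A : Matrix (Fin n) (Fin n) ℝ) (b : Fin n → ℝ) (c : ℝ) (x : Fin n → ℝ) (z : ℝ) : ℝ :=
  x ⬝ᵥ A *ᵥ x + 2 * (b ⬝ᵥ x) * z + c * z ^ 2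

def F (x : Fin 7 → ℝ) (z : ℝ) : Fin 3 → ℝ :=
  ![x 0 ^ 2 + x 1 ^ 2 - x 4 * z, x 2 ^ 2 + x 3 ^ 2 - x 5 * z, 2 * (x 0 * x 2 + x 1 * x 3) - x 6 * z]

def P : Set (Fin 3 → ℝ) := {w | ∀ s t : ℝ, 0 ≤ w 0 * s ^ 2 + w 1 * t ^ 2 + w 2 * (s * t)}

lemma gram {w : Fin 3 → ℝ} (h : w ∈ P) : ∃ p q r : ℝ, p ^ 2 = w 0 ∧ q ^ 2 + r ^ 2 = w 1 ∧ 2 * (p * q) = w 2 := by
  have a : 0 ≤ w 0 := by simpa using h 1 0
  rcases a.eq_or_lt with a | a
  · have b : 0 ≤ w 1 := by simpa using h 0 1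
    refine ⟨0, 0, √(w 1), by simpa, by simp [b], ?_⟩
    by_contra c
    have := h (-(w 1 + 1) / w 2) 1
    rw [← a, mul_one, mul_div_cancel₀ _ (by simpa [eq_comm] using c)] at this
    linarith
  · have s := Real.sqrt_pos.2 a
    have e : (w 2 / (2 * √(w 0))) ^ 2 = w 2 ^ 2 / (4 * w 0) := by rw [div_pow, mul_pow, Real.sq_sqrt a.le]; norm_num
    refine ⟨√(w 0), w 2 / (2 * √(w 0)), √(w 1 - w 2 ^ 2 / (4 * w 0)), Real.sq_sqrt a.le, ?_, by field_simp⟩
    rw [e, Real.sq_sqrt, add_sub_cancel]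
    refine (h (-w 2 / (2 * w 0)) 1).trans_eq ?_
    field_simp; ring

lemma mid {T : Set ℝ} (cT : Convex ℝ T) {p q s t : ℝ} (hp : p ∈ T) (hq : q ∈ closure T) (s0 : 0 < s) (t0 : 0 ≤ t)
    (st : s + t = 1) : s * p + t * q ∈ T := by
  obtain rfl : t = 1 - s := by linarith
  rcases lt_trichotomy p q with c | rfl | c
  · obtain ⟨r, hr, m⟩ := mem_closure_iff.1 hq (Ioi (s * p + (1 - s) * q)) isOpen_Ioi (mem_Ioi.2 (by nlinarith))
    exact cT.ordConnected.out hp m ⟨by nlinarith, le_of_lt hr⟩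
  · rwa [← add_mul, st, one_mul]
  · obtain ⟨r, hr, m⟩ := mem_closure_iff.1 hq (Iio (s * p + (1 - s) * q)) isOpen_Iio (mem_Iio.2 (by nlinarith))
    exact cT.ordConnected.out m hp ⟨le_of_lt hr, by nlinarith⟩

lemma hhc (a : Fin 7 → ℝ) (d : ℝ) : Convex ℝ {w | ∃ x z, a ⬝ᵥ x + d * z = 0 ∧ w = F x z} := by
  let R : (Fin 7 → ℝ) × ℝ → ℝ := fun y => y.2 * (a 0 * y.1 0 + a 1 * y.1 1 + a 2 * y.1 2 + a 3 * y.1 3) + d * y.2 ^ 2 +
    (a 4 * F y.1 0 0 + a 5 * F y.1 0 1 + a 6 * F y.1 0 2)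
  have cR : Continuous R := by simp only [R, F, cons_val]; fun_prop
  let T := R '' (univ ×ˢ Ioi 0)
  have cT : Convex ℝ T := (((convex_univ.prod (convex_Ioi 0)).isPreconnected).image R cR.continuousOn).convex
  let l : (Fin 3 → ℝ) → ℝ := fun w => a 4 * w 0 + a 5 * w 1 + a 6 * w 2
  have A : ∀ w, l w ∈ T → ∃ x z, a ⬝ᵥ x + d * z = 0 ∧ w = F x z := fun w ⟨⟨x, z⟩, ⟨_, (z0 : 0 < z)⟩, e⟩ => by
    refine ⟨![x 0, x 1, x 2, x 3, (F x 0 0 - w 0) / z, (F x 0 1 - w 1) / z, (F x 0 2 - w 2) / z], z, ?_, ?_⟩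
    · simp only [dotProduct, Fin.sum_univ_seven, cons_val, R, l] at e ⊢
      field_simp
      linear_combination e
    · ext i; fin_cases i <;> simp [F] <;> field_simp <;> ring
  have B : ∀ x z, a ⬝ᵥ x + d * z = 0 → l (F x z) ∈ T ∨ (F x z ∈ P ∧ l (F x z) ∈ closure T) := fun x z e => by
    simp only [dotProduct, Fin.sum_univ_seven] at e
    rcases lt_trichotomy z 0 with c | rfl | c
    · exact .inl ⟨(-x, -z), ⟨trivial, neg_pos.2 c⟩, by simp [R, l, F]; linear_combination z * e⟩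
    · refine .inr ⟨fun s t => ?_, ?_⟩
      · simp only [F, cons_val]
        nlinarith [sq_nonneg (x 0 * s + x 2 * t), sq_nonneg (x 1 * s + x 3 * t)]
      · have := map_mem_closure (s := univ ×ˢ Ioi 0) (x := (x, 0)) cR (by simp [closure_prod_eq])
          (mapsTo_image _ _)
        simpa [R] using this
    · exact .inl ⟨(x, z), ⟨trivial, c⟩, by simp [R, l, F]; linear_combination z * e⟩
  refine convex_iff_forall_pos.2 ?_
  rintro _ ⟨x, z, e, rfl⟩ _ ⟨x', z', e', rfl⟩ s t s0 t0 st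
  have L : l (s • F x z + t • F x' z') = s * l (F x z) + t * l (F x' z') := by simp [l]; ring
  rcases B x z e with u | ⟨u, u'⟩
  · exact A _ (L ▸ mid cT u ((B x' z' e').elim (subset_closure ·) And.right) s0 t0.le st)
  rcases B x' z' e' with v | ⟨v, -⟩
  · exact A _ (by rw [L, add_comm]; exact mid cT v u' t0 s0.le (by linarith))
  obtain ⟨p, q, r, e0, e1, e2⟩ := gram (w := s • F x z + t • F x' z') fun i j => by
    have := add_nonneg (mul_nonneg s0.le (u i j)) (mul_nonneg t0.le (v i j))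
    simp only [Pi.add_apply, Pi.smul_apply, smul_eq_mul]
    linarith
  generalize s • F x z + t • F x' z' = w at *
  by_cases c : a 4 = 0 ∧ a 5 = 0 ∧ a 6 = 0
  · by_cases c' : a 0 = 0 ∧ a 1 = 0 ∧ a 2 = 0 ∧ a 3 = 0
    · exact ⟨![p, 0, q, r, 0, 0, 0], 0, by simp [dotProduct, Fin.sum_univ_seven, c, c'],
        by ext i; fin_cases i <;> simp [F, *]⟩
    · have : a 0 ^ 2 + a 1 ^ 2 + a 2 ^ 2 + a 3 ^ 2 ≠ 0 := fun z => c' (by
        refine ⟨?_, ?_, ?_, ?_⟩ <;> nlinarith only [z, sq_nonneg (a 0), sq_nonneg (a 1), sq_nonneg (a 2), sq_nonneg (a 3)])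
      refine A _ ⟨((-d / (a 0 ^ 2 + a 1 ^ 2 + a 2 ^ 2 + a 3 ^ 2)) • a, 1), ⟨trivial, mem_Ioi.2 one_pos⟩, ?_⟩
      simp only [R, l, c, Pi.smul_apply, smul_eq_mul]
      field_simp; ring
  · have : a 4 ^ 2 + a 5 ^ 2 + a 6 ^ 2 ≠ 0 := fun z => c (by
      refine ⟨?_, ?_, ?_⟩ <;> nlinarith only [z, sq_nonneg (a 4), sq_nonneg (a 5), sq_nonneg (a 6)])
    let k := -(a 0 * p + a 2 * q + a 3 * r) / (a 4 ^ 2 + a 5 ^ 2 + a 6 ^ 2)
    refine ⟨![p, 0, q, r, k * a 4, k * a 5, k * a 6], 0, ?_, by ext i; fin_cases i <;> simp [F, *]⟩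
    simp only [dotProduct, Fin.sum_univ_seven, cons_val, k]
    field_simp; ring

/-- the set of solutions of the strict quadratic inequalities -/
def Sol {n m : ℕ} (A : Fin m → Matrix (Fin n) (Fin n) ℝ) (b : Fin m → Fin n → ℝ) (c : Fin m → ℝ) :
    Set (Fin n → ℝ) := {x | ∀ i, hom (A i) (b i) (c i) x 1 < 0}

/-- hidden hyperplane convexity: the image of every hyperplane of `ℝ^(n+1)` is convex -/
def HHC {n m : ℕ} (A : Fin m → Matrix (Fin n) (Fin n) ℝ) (b : Fin m → Fin n → ℝ) (c : Fin m → ℝ) :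
    Prop :=
  ∀ (a : Fin n → ℝ) (d : ℝ), a ≠ 0 ∨ d ≠ 0 →
    Convex ℝ {w : Fin m → ℝ | ∃ x z, a ⬝ᵥ x + d * z = 0 ∧ w = fun i => hom (A i) (b i) (c i) x z}

/-- the set of solutions of the aggregated inequality -/
def Agg {n m : ℕ} (A : Fin m → Matrix (Fin n) (Fin n) ℝ) (b : Fin m → Fin n → ℝ) (c : Fin m → ℝ)
    (l : Fin m → ℝ) : Set (Fin n → ℝ) := {x | ∑ i, l i * hom (A i) (b i) (c i) x 1 < 0}

section general

variable {n m : ℕ}

/-- the first seven coordinates -/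
def pj (hn : 7 ≤ n) (x : Fin n → ℝ) : Fin 7 → ℝ := fun i => x (Fin.castLE hn i)

/-- extension by zero -/
def ext0 (v : Fin 7 → ℝ) : Fin n → ℝ := fun j => if h : j.1 < 7 then v ⟨j.1, h⟩ else 0

lemma pj_ext0 (hn : 7 ≤ n) (v : Fin 7 → ℝ) : pj hn (ext0 v) = v := by
  funext i
  simp [pj, ext0]

/-- the projection matrix -/
def E (hn : 7 ≤ n) : Matrix (Fin 7) (Fin n) ℝ := fun i j => if j = Fin.castLE hn i then 1 else 0

lemma E_mulVec (hn : 7 ≤ n) (x : Fin n → ℝ) : E hn *ᵥ x = pj hn x := by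
  funext i
  simp [E, mulVec, dotProduct, pj]

lemma hom_E (hn : 7 ≤ n) (A : Matrix (Fin 7) (Fin 7) ℝ) (b : Fin 7 → ℝ) (c : ℝ) (x : Fin n → ℝ)
    (z : ℝ) : hom ((E hn)ᵀ * A * E hn) (b ᵥ* E hn) c x z = hom A b c (pj hn x) z := by
  unfold hom
  rw [← E_mulVec, ← Matrix.mulVec_mulVec, ← Matrix.mulVec_mulVec, Matrix.dotProduct_mulVec x,
    Matrix.vecMul_transpose, ← Matrix.dotProduct_mulVec b]

/-- the index map onto the three quadratics -/
def pi3 (i : Fin m) : Fin 3 := ⟨min i.1 2, by omega⟩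

lemma pi3_castLE (hm : 3 ≤ m) (i : Fin 3) : pi3 (Fin.castLE hm i) = i := by
  apply Fin.ext
  simp only [pi3, Fin.val_castLE]
  omega

lemma all_iff (hm : 3 ≤ m) (p : Fin 3 → Prop) : (∀ i : Fin m, p (pi3 i)) ↔ ∀ i, p i :=
  ⟨fun h i => pi3_castLE hm i ▸ h (Fin.castLE hm i), fun h i => h _⟩

lemma hhc_gen (hn : 7 ≤ n) (a : Fin n → ℝ) (d : ℝ) :
    Convex ℝ {w : Fin m → ℝ | ∃ x z, a ⬝ᵥ x + d * z = 0 ∧ w = fun i => F (pj hn x) z (pi3 i)} := by
  have key : Convex ℝ {w : Fin 3 → ℝ | ∃ x z, a ⬝ᵥ x + d * z = 0 ∧ w = F (pj hn x) z} := by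
    by_cases h : ∃ j : Fin n, 7 ≤ j.1 ∧ a j ≠ 0
    · obtain ⟨j, hj, haj⟩ := h
      convert hhc 0 0 using 1
      ext w
      constructor
      · rintro ⟨x, z, -, h⟩
        exact ⟨pj hn x, z, by simp, h⟩
      · rintro ⟨y, z, -, h⟩
        refine ⟨ext0 y + Pi.single j (-(a ⬝ᵥ ext0 y + d * z) / a j), z, ?_, ?_⟩
        · rw [dotProduct_add, dotProduct_single]
          field_simp
          ring
        · rw [h]
          congr 1
          rw [← pj_ext0 hn y]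
          funext i
          have : Fin.castLE hn i ≠ j := fun h => by
            have := congrArg Fin.val h
            simp only [Fin.val_castLE] at this
            omega
          simp [pj, this, pj_ext0]
    · push Not at h
      have ha : ∀ x : Fin n → ℝ, a ⬝ᵥ x = pj hn a ⬝ᵥ pj hn x := by
        intro x
        simp only [dotProduct, pj]
        symm
        rw [← Finset.sum_image (s := Finset.univ) (g := Fin.castLE hn)
          (f := fun j => a j * x j) (fun i _ i' _ h => Fin.castLE_injective hn h)]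
        refine Finset.sum_subset (Finset.subset_univ _) fun j _ hj => ?_
        rw [h j, zero_mul]
        by_contra hlt
        exact hj (Finset.mem_image.2 ⟨⟨j.1, by omega⟩, Finset.mem_univ _, rfl⟩)
      convert hhc (pj hn a) d using 1
      ext w
      constructor
      · rintro ⟨x, z, e, h⟩
        exact ⟨pj hn x, z, by rw [← ha]; exact e, h⟩
      · rintro ⟨y, z, e, h⟩
        refine ⟨ext0 y, z, ?_, ?_⟩
        · rw [ha, pj_ext0]; exact e
        · rw [pj_ext0]; exact h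
  have := key.is_linear_image (f := fun w : Fin 3 → ℝ => fun i : Fin m => w (pi3 i))
    ⟨fun _ _ => rfl, fun _ _ => rfl⟩
  have heq : {w : Fin m → ℝ | ∃ x z, a ⬝ᵥ x + d * z = 0 ∧ w = fun i => F (pj hn x) z (pi3 i)} =
      (fun (w : Fin 3 → ℝ) (i : Fin m) => w (pi3 i)) ''
        {w | ∃ x z, a ⬝ᵥ x + d * z = 0 ∧ w = F (pj hn x) z} := by
    apply Set.ext
    intro w
    constructor
    · rintro ⟨x, z, e, rfl⟩
      exact ⟨F (pj hn x) z, ⟨x, z, e, rfl⟩, rfl⟩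
    · rintro ⟨_, ⟨x, z, e, rfl⟩, rfl⟩
      exact ⟨x, z, e, rfl⟩
  rw [heq]
  exact this

end general

/-- For all `n ≥ 7` and `m ≥ 3` there are `m` quadratics on `ℝⁿ` with hidden hyperplane convexity,
`S ≠ ∅`, `conv(S) ≠ ℝⁿ`, such that `conv(S)` is not the intersection of any countable family of
aggregations. -/
theorem result (n m : ℕ) (hn : 7 ≤ n) (hm : 3 ≤ m) :
    ∃ (A : Fin m → Matrix (Fin n) (Fin n) ℝ) (b : Fin m → Fin n → ℝ) (c : Fin m → ℝ),
      (∀ i, (A i).IsSymm) ∧ HHC A b c ∧ (Sol A b c).Nonempty ∧ convexHull ℝ (Sol A b c) ≠ univ ∧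
      ∀ (J : Type) [Countable J] (l : J → Fin m → ℝ), (∀ j, 0 ≤ l j ∧ l j ≠ 0) →
        convexHull ℝ (Sol A b c) ≠ ⋂ j, Agg A b c (l j) := by
  let A : Fin 3 → Matrix (Fin 7) (Fin 7) ℝ := ![diagonal ![1, 1, 0, 0, 0, 0, 0], diagonal ![0, 0, 1, 1, 0, 0, 0],
    single 0 2 1 + single 2 0 1 + single 1 3 1 + single 3 1 1]
  let b : Fin 3 → Fin 7 → ℝ := ![Pi.single 4 (-1 / 2), Pi.single 5 (-1 / 2), Pi.single 6 (-1 / 2)]
  have e : ∀ x z i, hom (A i) (b i) 0 x z = F x z i := fun x z i => by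
    fin_cases i <;> simp [hom, A, b, F, mulVec_diagonal, dotProduct, Fin.sum_univ_seven, add_mulVec, single_mulVec] <;>
      ring
  let A' : Fin m → Matrix (Fin n) (Fin n) ℝ := fun i => (E hn)ᵀ * A (pi3 i) * E hn
  let b' : Fin m → Fin n → ℝ := fun i => b (pi3 i) ᵥ* E hn
  have e' : ∀ x z i, hom (A' i) (b' i) 0 x z = F (pj hn x) z (pi3 i) := fun x z i => by
    rw [← e]
    exact hom_E hn _ _ _ _ _
  have hS : Sol A' b' 0 = {x | ∀ i, F (pj hn x) 1 i < 0} := by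
    ext x
    simp only [Sol, Pi.zero_apply, e', mem_ofPred_eq]
    exact all_iff hm fun i => F (pj hn x) 1 i < 0
  have sub : ∀ a : ℝ, 0 < a → ∀ x ∈ convexHull ℝ {x : Fin n → ℝ | ∀ i, F (pj hn x) 1 i < 0},
      0 < pj hn x 4 + a ^ 2 * pj hn x 5 + a * pj hn x 6 :=
    fun a ha => convexHull_min (t := {x : Fin n → ℝ | 0 < pj hn x 4 + a ^ 2 * pj hn x 5 + a * pj hn x 6})
      (fun x hx => by
      have h0 := hx 0
      have h1 := mul_neg_of_pos_of_neg (pow_pos ha 2) (hx 1)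
      have h2 := mul_neg_of_pos_of_neg ha (hx 2)
      simp only [F, cons_val, mem_ofPred_eq] at h0 h1 h2 ⊢
      nlinarith [sq_nonneg (pj hn x 0 + a * pj hn x 2), sq_nonneg (pj hn x 1 + a * pj hn x 3)])
      (convex_halfSpace_gt ⟨fun x y => by simp [pj]; ring, fun c x => by simp [pj]; ring⟩ 0)
  refine ⟨A', b', 0, fun i => ?_, fun a d _ => ?_, ?_, fun c => ?_, fun J _ l hl c => ?_⟩
  · have hA : (A (pi3 i)).IsSymm := by
      generalize pi3 i = k
      fin_cases k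
      exacts [isSymm_diagonal _, isSymm_diagonal _, by
        simp only [A, IsSymm, cons_val, Fin.reduceFinMk, transpose_add, transpose_single]; abel]
    simp only [A', IsSymm, Matrix.transpose_mul, Matrix.transpose_transpose, Matrix.mul_assoc]
    rw [hA]
  · simpa only [Pi.zero_apply, e'] using hhc_gen hn a d
  · rw [hS]
    refine ⟨ext0 ![0, 0, 0, 0, 1, 1, 1], fun i => ?_⟩
    rw [pj_ext0]
    fin_cases i <;> simp [F]
  · rw [hS] at c
    simpa [pj] using sub 1 one_pos 0 (c ▸ trivial)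
  rw [hS] at c
  -- the coefficients of the three quadratics
  let l3 : J → Fin 3 → ℝ := fun j k => ∑ i ∈ Finset.univ.filter (fun i : Fin m => pi3 i = k), l j i
  have hl0 : ∀ j k, 0 ≤ l3 j k := fun j k => Finset.sum_nonneg fun i _ => (hl j).1 i
  have hl1 : ∀ j, l3 j ≠ 0 := fun j h => (hl j).2 (by
    funext i
    have h1 := congrFun h (pi3 i)
    simp only [l3, Pi.zero_apply] at h1
    rw [Finset.sum_eq_zero_iff_of_nonneg fun i _ => (hl j).1 i] at h1
    exact h1 i (Finset.mem_filter.2 ⟨Finset.mem_univ _, rfl⟩))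
  have hagg : ∀ j x, x ∈ Agg A' b' 0 (l j) ↔ ∑ k, l3 j k * F (pj hn x) 1 k < 0 := fun j x => by
    simp only [Agg, Pi.zero_apply, e', mem_ofPred_eq]
    have : ∑ i, l j i * F (pj hn x) 1 (pi3 i) = ∑ k, l3 j k * F (pj hn x) 1 k := by
      simp only [l3, Finset.sum_mul]
      rw [← Finset.sum_fiberwise (s := Finset.univ) (g := fun i : Fin m => pi3 i)]
      refine Finset.sum_congr rfl fun k _ => Finset.sum_congr rfl fun i hi => ?_
      rw [(Finset.mem_filter.1 hi).2]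
    rw [this]
  have nn : ∀ j a, 0 ≤ l3 j 0 * a ^ 2 + l3 j 1 - 2 * a * l3 j 2 := fun j a => le_of_forall_pos_lt_add fun ε h => by
    have n0 : 0 ≤ l3 j 0 := hl0 j 0
    have n1 : 0 ≤ l3 j 1 := hl0 j 1
    have n2 : 0 ≤ l3 j 2 := hl0 j 2
    obtain ⟨δ, d0, hd⟩ : ∃ δ : ℝ, 0 < δ ∧ δ * (l3 j 0 + l3 j 1 + l3 j 2 + 1) = ε :=
      ⟨ε / (l3 j 0 + l3 j 1 + l3 j 2 + 1), by positivity, by field_simp⟩
    have m : ∀ σ : ℝ, σ ^ 2 = 1 → (ext0 ![σ * a, 0, -σ, 0, a ^ 2 + δ, 1 + δ, -2 * a + δ] : Fin n → ℝ) ∈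
        convexHull ℝ {x : Fin n → ℝ | ∀ i, F (pj hn x) 1 i < 0} := fun σ s => subset_convexHull _ _ fun i => by
      rw [pj_ext0]
      fin_cases i <;> simp [F, mul_pow, s, d0]
      linarith [show σ * a * σ = a by linear_combination a * s]
    have := convex_convexHull _ _ (m 1 (by simp)) (m (-1) (by simp)) (a := 1 / 2) (b := 1 / 2) (by simp) (by simp)
      (by norm_num)
    rw [c, mem_iInter] at this
    have := (hagg j _).1 (this j)
    have hp : ∀ (s t : ℝ) (x y : Fin n → ℝ), pj hn (s • x + t • y) = s • pj hn x + t • pj hn y :=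
      fun _ _ _ _ => rfl
    rw [hp, pj_ext0, pj_ext0] at this
    simp [F, Fin.sum_univ_three] at this
    nlinarith
  have cnt : {a : ℝ | ∃ j, l3 j 0 * a ^ 2 + l3 j 1 - 2 * a * l3 j 2 = 0}.Countable := by
    rw [ofPred_exists]
    refine countable_iUnion fun j => Set.Subsingleton.countable fun a ha a' ha' => ?_
    by_contra d
    have h1 := nn j ((a + a') / 2)
    have h2 : 0 < (a - a') ^ 2 := by have := sub_ne_zero.2 d; positivity
    have n0 : 0 ≤ l3 j 0 := hl0 j 0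
    simp only [mem_ofPred_eq] at ha ha'
    have z0 : l3 j 0 = 0 := by nlinarith
    have z2 : l3 j 2 = 0 := mul_left_cancel₀ (sub_ne_zero.2 d) (by rw [z0] at ha ha'; linarith)
    refine hl1 j (funext fun i => ?_)
    fin_cases i
    · exact z0
    · have : l3 j 1 = 0 := by rw [z0, z2] at ha; linarith
      exact this
    · exact z2
  obtain ⟨a, ha, na⟩ : ∃ a ∈ Ioi (0 : ℝ), a ∉ {a : ℝ | ∃ j, l3 j 0 * a ^ 2 + l3 j 1 - 2 * a * l3 j 2 = 0} := by
    by_contra hcon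
    push Not at hcon
    have : (Ioi (0 : ℝ)).Countable := cnt.mono hcon
    exact (Cardinal.mk_Ioi_real 0 ▸ Cardinal.aleph0_lt_continuum).not_ge (Cardinal.le_aleph0_iff_set_countable.2 this)
  have := sub a ha (ext0 ![0, 0, 0, 0, a ^ 2, 1, -2 * a]) (c ▸ mem_iInter.2 fun j => by
    have := (nn j a).lt_of_ne' fun z => na ⟨j, z⟩
    rw [hagg, pj_ext0]
    simp [F, Fin.sum_univ_three]
    linarith)
  rw [pj_ext0] at this
  simp at this
  linarith

end Pool.Agent.Results.MP_9b412f_an.NotCountable
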